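import Pool.Agent.H50En.Defs

/-! Combinatorics of the coned complex for an arbitrary metric. -/

namespace Pool.Agent.H18R4

open Real Finset Pool.Agent.H50En

variable {V : Type} [DecidableEq V]

/-- ordered pairs -/
theorem pair_sum {W : Type} [DecidableEq W] {T σ : Finset W} (hσ : σ ⊆ T) {a b : W} (hab : a ≠ b)
    (hT : T \ σ = {a, b}) (f : W → W → ℝ) :
    ∑ k ∈ T, ∑ l ∈ T, (if k ≠ l ∧ (T.erase k).erase l = σ then f k l else 0) = f a b + f b a := by
  have ha : a ∈ T ∧ a ∉ σ := by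
    have : a ∈ T \ σ := by rw [hT]; simp
    simpa using this
  have hb : b ∈ T ∧ b ∉ σ := by
    have : b ∈ T \ σ := by rw [hT]; simp
    simpa using this
  have key : ∀ u v, u ∈ T → v ∈ T → T \ σ = {u, v} → (T.erase u).erase v = σ := by
    intro u v hu hv h
    have hu' : u ∉ σ := by
      have : u ∈ T \ σ := by rw [h]; simp
      exact (mem_sdiff.1 this).2
    have hv' : v ∉ σ := by
      have : v ∈ T \ σ := by rw [h]; simp
      exact (mem_sdiff.1 this).2
    ext w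
    simp only [mem_erase]
    constructor
    · rintro ⟨h1, h2, h3⟩
      by_contra h4
      have : w ∈ T \ σ := mem_sdiff.2 ⟨h3, h4⟩
      rw [h] at this
      simp only [mem_insert, mem_singleton] at this
      tauto
    · intro h1
      exact ⟨fun e => hv' (e ▸ h1), fun e => hu' (e ▸ h1), hσ h1⟩
  have hset : (T ×ˢ T).filter (fun p => p.1 ≠ p.2 ∧ (T.erase p.1).erase p.2 = σ) =
      {(a, b), (b, a)} := by
    ext ⟨k, l⟩
    simp only [mem_filter, mem_product, mem_insert, mem_singleton, Prod.mk.injEq]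
    constructor
    · rintro ⟨⟨hk, hl⟩, hkl, h⟩
      have hk' : k ∈ T \ σ := by
        rw [mem_sdiff, ← h]; simp [hk]
      have hl' : l ∈ T \ σ := by
        rw [mem_sdiff, ← h]; simp [hl]
      rw [hT] at hk' hl'
      simp only [mem_insert, mem_singleton] at hk' hl'
      rcases hk' with rfl | rfl <;> rcases hl' with rfl | rfl <;> simp_all
    · rintro (⟨rfl, rfl⟩ | ⟨rfl, rfl⟩)
      · exact ⟨⟨ha.1, hb.1⟩, hab, key _ _ ha.1 hb.1 hT⟩
      · exact ⟨⟨hb.1, ha.1⟩, hab.symm, key _ _ hb.1 ha.1 (by rw [hT, pair_comm])⟩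
  rw [← sum_product' T T (fun k l => if k ≠ l ∧ (T.erase k).erase l = σ then f k l else 0),
    ← sum_filter, hset, sum_pair (by simp [hab])]

/-- no pairs -/
theorem pair_zero {W : Type} [DecidableEq W] {T σ : Finset W} (hσ : ¬ σ ⊆ T) (f : W → W → ℝ) :
    ∑ k ∈ T, ∑ l ∈ T, (if k ≠ l ∧ (T.erase k).erase l = σ then f k l else 0) = 0 := by
  apply sum_eq_zero; intro k hk
  apply sum_eq_zero; intro l hl
  rw [if_neg]
  rintro ⟨-, h⟩
  apply hσ
  rw [← h]
  exact (erase_subset _ _).trans (erase_subset _ _)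

/-- the cone over `ρ` from the new vertex of `T` -/
def g (T ρ : Finset V) : Finset (V ⊕ Finset V) :=
  insert (Sum.inr T) (ρ.map ⟨Sum.inl, Sum.inl_injective⟩)

theorem mem_g_inl {T ρ : Finset V} {x : V} : Sum.inl x ∈ g T ρ ↔ x ∈ ρ := by simp [g]

theorem mem_g_inr {T ρ T1 : Finset V} : Sum.inr T1 ∈ g T ρ ↔ T1 = T := by simp [g]

theorem g_sub {T ρ τ : Finset V} : g T ρ ⊆ g T τ ↔ ρ ⊆ τ := by
  constructor
  · intro h x hx
    exact mem_g_inl.1 (h (mem_g_inl.2 hx))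
  · intro h x hx
    rcases x with x | x
    · exact mem_g_inl.2 (h (mem_g_inl.1 hx))
    · exact mem_g_inr.2 (mem_g_inr.1 hx)

theorem g_inj (T : Finset V) : Function.Injective (g T) := by
  intro ρ τ h
  exact subset_antisymm (g_sub.1 h.subset) (g_sub.1 h.symm.subset)

theorem card_g (T ρ : Finset V) : #(g T ρ) = #ρ + 1 := by
  unfold g
  rw [card_insert_of_notMem (by simp), card_map]

theorem mem_cone {K : Finset (Finset V)} {T' : Finset (V ⊕ Finset V)} :
    T' ∈ cone K ↔ ∃ T ∈ K, ∃ v ∈ T, g T (T.erase v) = T' := by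
  simp [cone, g]

theorem eq_g {T τ : Finset V} {σ : Finset (V ⊕ Finset V)} (h1 : Sum.inr T ∈ σ) (h2 : σ ⊆ g T τ) :
    σ = g T (τ.filter (Sum.inl · ∈ σ)) := by
  ext x
  rcases x with x | x
  · rw [mem_g_inl, mem_filter]
    exact ⟨fun h => ⟨mem_g_inl.1 (h2 h), h⟩, fun h => h.2⟩
  · rw [mem_g_inr]
    constructor
    · exact fun h => mem_g_inr.1 (h2 h)
    · rintro rfl; exact h1

theorem faces_inr {K : Finset (Finset V)} {n : ℕ} (hK : Pure n K) {T : Finset V} (hT : T ∈ K)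
    {x : V} (hn : 3 ≤ n) :
    (faces (cone K) (n - 1)).filter (fun σ => Sum.inr T ∈ σ ∧ Sum.inl x ∈ σ) =
      ((powersetCard (n - 2) T).filter (x ∈ ·)).image (g T) := by
  ext σ
  simp only [mem_filter, mem_image, faces, mem_biUnion, mem_powersetCard]
  constructor
  · rintro ⟨⟨T', hT', hs, hc⟩, h1, h2⟩
    obtain ⟨T1, hT1, v, hv, rfl⟩ := mem_cone.1 hT'
    have : T = T1 := mem_g_inr.1 (hs h1)
    subst this
    have he := eq_g h1 hs
    refine ⟨_, ⟨⟨?_, ?_⟩, ?_⟩, he.symm⟩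
    · exact (filter_subset _ _).trans (erase_subset _ _)
    · rw [he, card_g] at hc; omega
    · rw [he, mem_g_inl] at h2; exact h2
  · rintro ⟨ρ, ⟨⟨hρ, hc⟩, hx⟩, rfl⟩
    have hlt : #ρ < #T := by rw [hK T hT]; omega
    obtain ⟨v, hv, hv'⟩ := exists_mem_notMem_of_card_lt_card hlt
    refine ⟨⟨g T (T.erase v), mem_cone.2 ⟨T, hT, v, hv, rfl⟩, ?_, ?_⟩, ?_, ?_⟩
    · rw [g_sub]; intro y hy
      exact mem_erase.2 ⟨fun e => hv' (e ▸ hy), hρ hy⟩
    · rw [card_g]; omega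
    · exact mem_g_inr.2 rfl
    · exact mem_g_inl.2 hx

theorem filter_cone {K : Finset (Finset V)} {T : Finset V} (hT : T ∈ K) {ρ : Finset V}
    (hρ : ρ ⊆ T) :
    (cone K).filter (g T ρ ⊆ ·) = (T \ ρ).image (fun v => g T (T.erase v)) := by
  ext T'
  simp only [mem_filter, mem_image, mem_sdiff]
  constructor
  · rintro ⟨h1, h2⟩
    obtain ⟨T1, hT1, v, hv, rfl⟩ := mem_cone.1 h1
    have : T = T1 := mem_g_inr.1 (h2 (mem_g_inr.2 rfl))
    subst this
    refine ⟨v, ⟨hv, fun h => ?_⟩, rfl⟩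
    have := (g_sub.1 h2) h
    simp at this
  · rintro ⟨v, ⟨hv, hv'⟩, rfl⟩
    refine ⟨mem_cone.2 ⟨T, hT, v, hv, rfl⟩, ?_⟩
    rw [g_sub]; intro y hy
    exact mem_erase.2 ⟨fun e => hv' (e ▸ hy), hρ hy⟩

theorem Q_sy {W : Type} [DecidableEq W] (z : Sym2 W → ℝ) (s : Finset W) (k l : W) :
    Q z s k l = Q z s l k := by
  have hT : (CM z s).transpose = CM z s := by
    ext a b
    rcases a with _ | a <;> rcases b with _ | b
    · rfl
    · rfl
    · rfl
    · simp only [Matrix.transpose_apply, CM, Matrix.of_apply]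
      by_cases h : a = b
      · subst h; rfl
      · rw [if_neg h, if_neg (Ne.symm h), Sym2.eq_swap]
  have hI : ∀ a b, (CM z s)⁻¹ a b = (CM z s)⁻¹ b a := by
    intro a b
    conv_lhs => rw [← hT, ← Matrix.transpose_nonsing_inv]
    rfl
  unfold Q
  by_cases h : k ∈ s ∧ l ∈ s
  · rw [dif_pos h, dif_pos h.symm, hI]
  · rw [dif_neg h, dif_neg (fun h' => h h'.symm)]

theorem ang_sy {W : Type} [DecidableEq W] (z : Sym2 W → ℝ) (s : Finset W) (k l : W) :
    ang z s k l = ang z s l k := by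
  unfold ang
  rw [Q_sy z s k l, mul_comm (Q z s k k)]

/-- old faces in the cone -/
def o (ρ : Finset V) : Finset (V ⊕ Finset V) := ρ.map ⟨Sum.inl, Sum.inl_injective⟩

theorem mem_o_inl {ρ : Finset V} {x : V} : Sum.inl x ∈ o ρ ↔ x ∈ ρ := by simp [o]

theorem mem_o_inr {ρ T1 : Finset V} : Sum.inr T1 ∉ o ρ := by simp [o]

theorem card_o (ρ : Finset V) : #(o ρ) = #ρ := card_map _

theorem o_inj : Function.Injective (o (V := V)) := map_injective _

theorem o_sub {T ρ τ : Finset V} : o ρ ⊆ g T τ ↔ ρ ⊆ τ := by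
  constructor
  · intro h x hx
    exact mem_g_inl.1 (h (mem_o_inl.2 hx))
  · intro h x hx
    rcases x with x | x
    · exact mem_g_inl.2 (h (mem_o_inl.1 hx))
    · exact absurd hx mem_o_inr

theorem eq_o {T τ : Finset V} {σ : Finset (V ⊕ Finset V)} (h1 : Sum.inr T ∉ σ) (h2 : σ ⊆ g T τ) :
    σ = o (τ.filter (Sum.inl · ∈ σ)) := by
  ext x
  rcases x with x | x
  · rw [mem_o_inl, mem_filter]
    exact ⟨fun h => ⟨mem_g_inl.1 (h2 h), h⟩, fun h => h.2⟩
  · constructor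
    · intro h
      have := mem_g_inr.1 (h2 h)
      subst this
      exact absurd h h1
    · intro h; exact absurd h mem_o_inr

theorem faces_inl {K : Finset (Finset V)} {n : ℕ} (hK : Pure n K) (hn : 3 ≤ n) (x y : V) :
    (faces (cone K) (n - 1)).filter (fun σ => Sum.inl x ∈ σ ∧ Sum.inl y ∈ σ) =
      ((faces K (n - 1)).filter ({x, y} ⊆ ·)).image o ∪
      (K.filter ({x, y} ⊆ ·)).biUnion
        (fun T => ((powersetCard (n - 2) T).filter ({x, y} ⊆ ·)).image (g T)) := by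
  have hpair : ∀ ρ : Finset V, {x, y} ⊆ ρ ↔ x ∈ ρ ∧ y ∈ ρ := by
    intro ρ
    rw [insert_subset_iff, singleton_subset_iff]
  have hv : ∀ T ∈ K, ∀ ρ ⊆ T, #ρ < n + 1 → ∃ v ∈ T, ρ ⊆ T.erase v := by
    intro T hT ρ hρ hc
    obtain ⟨v, hv, hv'⟩ := exists_mem_notMem_of_card_lt_card (s := ρ) (t := T) (by rw [hK T hT]; exact hc)
    exact ⟨v, hv, fun y hy => mem_erase.2 ⟨fun e => hv' (e ▸ hy), hρ hy⟩⟩
  ext σ
  simp only [mem_union, mem_filter, mem_image, faces, mem_biUnion, mem_powersetCard, hpair]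
  constructor
  · rintro ⟨⟨T', hT', hs, hc⟩, h1, h2⟩
    obtain ⟨T, hT, v, hv, rfl⟩ := mem_cone.1 hT'
    by_cases h : Sum.inr T ∈ σ
    · right
      have he := eq_g h hs
      have hsub : (T.erase v).filter (Sum.inl · ∈ σ) ⊆ T := (filter_subset _ _).trans (erase_subset _ _)
      rw [he, mem_g_inl] at h1 h2
      refine ⟨T, ⟨hT, hsub h1, hsub h2⟩, _, ⟨⟨hsub, ?_⟩, h1, h2⟩, he.symm⟩
      rw [he, card_g] at hc; omega
    · left
      have he := eq_o h hs
      have hsub : (T.erase v).filter (Sum.inl · ∈ σ) ⊆ T := (filter_subset _ _).trans (erase_subset _ _)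
      rw [he, mem_o_inl] at h1 h2
      refine ⟨_, ⟨⟨T, hT, hsub, ?_⟩, h1, h2⟩, he.symm⟩
      rw [he, card_o] at hc; omega
  · rintro (⟨ρ, ⟨⟨T, hT, hρ, hc⟩, hx, hy⟩, rfl⟩ | ⟨T, ⟨hT, hx', hy'⟩, ρ, ⟨⟨hρ, hc⟩, hx, hy⟩, rfl⟩)
    · obtain ⟨v, hv, hv'⟩ := hv T hT ρ hρ (by omega)
      exact ⟨⟨g T (T.erase v), mem_cone.2 ⟨T, hT, v, hv, rfl⟩, o_sub.2 hv', by rw [card_o, hc]⟩,
        mem_o_inl.2 hx, mem_o_inl.2 hy⟩
    · obtain ⟨v, hv, hv'⟩ := hv T hT ρ hρ (by omega)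
      exact ⟨⟨g T (T.erase v), mem_cone.2 ⟨T, hT, v, hv, rfl⟩, g_sub.2 hv', by rw [card_g, hc]; omega⟩,
        mem_g_inl.2 hx, mem_g_inl.2 hy⟩

theorem filter_cone_o {K : Finset (Finset V)} (ρ : Finset V) :
    (cone K).filter (o ρ ⊆ ·) = (K.filter (ρ ⊆ ·)).biUnion
      (fun T => (T \ ρ).image (fun v => g T (T.erase v))) := by
  ext T'
  simp only [mem_filter, mem_image, mem_sdiff, mem_biUnion]
  constructor
  · rintro ⟨h1, h2⟩
    obtain ⟨T, hT, v, hv, rfl⟩ := mem_cone.1 h1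
    rw [o_sub] at h2
    exact ⟨T, ⟨hT, h2.trans (erase_subset _ _)⟩, v, ⟨hv, fun h => by simpa using h2 h⟩, rfl⟩
  · rintro ⟨T, ⟨hT, hρ⟩, v, ⟨hv, hv'⟩, rfl⟩
    refine ⟨mem_cone.2 ⟨T, hT, v, hv, rfl⟩, ?_⟩
    rw [o_sub]; intro y hy
    exact mem_erase.2 ⟨fun e => hv' (e ▸ hy), hρ hy⟩


/-- the terms of the curvature -/
theorem curv_filter {W : Type} [DecidableEq W] (K : Finset (Finset W)) (z : Sym2 W → ℝ)
    (σ : Finset W) :
    curv K z σ = 1 - ∑ T ∈ K.filter (σ ⊆ ·), ∑ k ∈ T, ∑ l ∈ T,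
      if k ≠ l ∧ (T.erase k).erase l = σ then ang z T k l / (4 * π) else 0 := by
  unfold curv
  congr 1
  symm
  apply sum_subset (filter_subset _ _)
  intro T hT hn
  apply pair_zero (f := fun k l => ang z T k l / (4 * π))
  intro h
  exact hn (mem_filter.2 ⟨hT, h⟩)

/-- the term of one simplex -/
theorem term {W : Type} [DecidableEq W] (z : Sym2 W → ℝ) {T σ : Finset W} (hσ : σ ⊆ T) {a b : W}
    (hab : a ≠ b) (hT : T \ σ = {a, b}) :
    (∑ k ∈ T, ∑ l ∈ T, if k ≠ l ∧ (T.erase k).erase l = σ then ang z T k l / (4 * π) else 0) =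
      ang z T a b / (2 * π) := by
  rw [pair_sum hσ hab hT (fun k l => ang z T k l / (4 * π)), ang_sy z T b a]
  have := pi_ne_zero
  field_simp
  ring

theorem erase_inj {T : Finset V} {v w : V} (hv : v ∈ T) (hw : w ∈ T)
    (h : g T (T.erase v) = g T (T.erase w)) : v = w := by
  have h : T.erase v = T.erase w := g_inj T h
  by_contra hne
  have : v ∈ T.erase w := mem_erase.2 ⟨hne, hv⟩
  rw [← h] at this
  simp at this

/-- (1) the curvature of old faces does not change -/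
theorem curv_old {n : ℕ} (hn : 3 ≤ n) {K : Finset (Finset V)} (hK : Pure n K)
    {z : Sym2 V → ℝ} {z' : Sym2 (V ⊕ Finset V) → ℝ}
    (hA : ∀ T ∈ K, ∀ k ∈ T, ∀ l ∈ T, k ≠ l →
      ang z' (g T (T.erase k)) (Sum.inr T) (Sum.inl l) +
        ang z' (g T (T.erase l)) (Sum.inr T) (Sum.inl k) = ang z T k l)
    {σ : Finset V} (hc : #σ = n - 1) :
    curv (cone K) z' (o σ) = curv K z σ := by
  rw [curv_filter, curv_filter, filter_cone_o, sum_biUnion]
  · congr 1
    apply sum_congr rfl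
    intro T hT
    rw [mem_filter] at hT
    obtain ⟨hT, hσ⟩ := hT
    have hTn := hK T hT
    have h2 : #(T \ σ) = 2 := by rw [card_sdiff_of_subset hσ]; omega
    obtain ⟨a, b, hab, hTs⟩ := card_eq_two.1 h2
    have ha : a ∈ T \ σ := by rw [hTs]; simp
    have hb : b ∈ T \ σ := by rw [hTs]; simp
    rw [mem_sdiff] at ha hb
    rw [term z hσ hab hTs, sum_image (fun v hv w hw h =>
      erase_inj (mem_sdiff.1 hv).1 (mem_sdiff.1 hw).1 h), hTs, sum_pair hab, ← hA T hT a ha.1 b hb.1 hab]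
    have key : ∀ u v, u ∈ T → u ∉ σ → v ∈ T → v ∉ σ → u ≠ v → T \ σ = {u, v} →
        (∑ k ∈ g T (T.erase u), ∑ l ∈ g T (T.erase u),
          if k ≠ l ∧ ((g T (T.erase u)).erase k).erase l = o σ then
            ang z' (g T (T.erase u)) k l / (4 * π) else 0) =
        ang z' (g T (T.erase u)) (Sum.inr T) (Sum.inl v) / (2 * π) := by
      intro u v hu hu' hv hv' huv h
      apply term z'
      · exact o_sub.2 (fun y hy => mem_erase.2 ⟨fun e => hu' (e ▸ hy), hσ hy⟩)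
      · simp
      · ext x
        rcases x with x | x
        · simp only [mem_sdiff, mem_g_inl, mem_o_inl, mem_erase, mem_insert, mem_singleton,
            reduceCtorEq, false_or, Sum.inl.injEq]
          constructor
          · rintro ⟨⟨h1, h2⟩, h3⟩
            have : x ∈ T \ σ := mem_sdiff.2 ⟨h2, h3⟩
            rw [h, mem_insert, mem_singleton] at this
            tauto
          · rintro rfl
            exact ⟨⟨huv.symm, hv⟩, hv'⟩
        · simp only [mem_sdiff, mem_g_inr, mem_insert, mem_singleton, reduceCtorEq, or_false,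
            Sum.inr.injEq]
          exact ⟨fun h => h.1, fun h => ⟨h, mem_o_inr⟩⟩
    rw [key a b ha.1 ha.2 hb.1 hb.2 hab hTs,
      key b a hb.1 hb.2 ha.1 ha.2 hab.symm (by rw [hTs, pair_comm])]
    ring
  · intro T hT T1 hT1 hne
    rw [Function.onFun, disjoint_left]
    intro σ hσ hσ1
    rw [mem_image] at hσ hσ1
    obtain ⟨v, -, rfl⟩ := hσ
    obtain ⟨w, -, h⟩ := hσ1
    have : Sum.inr T1 ∈ g T (T.erase v) := by rw [← h]; exact mem_g_inr.2 rfl
    exact hne (mem_g_inr.1 this).symm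

/-- (2) the curvature of new faces is zero -/
theorem curv_new {n : ℕ} (hn : 3 ≤ n) {K : Finset (Finset V)} (hK : Pure n K)
    {z' : Sym2 (V ⊕ Finset V) → ℝ}
    (hB : ∀ T ∈ K, ∀ k ∈ T, ∀ l ∈ T, ∀ m ∈ T, k ≠ l → k ≠ m → l ≠ m →
      ang z' (g T (T.erase k)) (Sum.inl l) (Sum.inl m) +
        ang z' (g T (T.erase l)) (Sum.inl k) (Sum.inl m) +
        ang z' (g T (T.erase m)) (Sum.inl k) (Sum.inl l) = 2 * π)
    {T : Finset V} (hT : T ∈ K) {ρ : Finset V} (hρ : ρ ⊆ T) (hc : #ρ = n - 2) :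
    curv (cone K) z' (g T ρ) = 0 := by
  have hTn := hK T hT
  have h3 : #(T \ ρ) = 3 := by rw [card_sdiff_of_subset hρ]; omega
  obtain ⟨a, b, c, hab, hac, hbc, hTs⟩ := card_eq_three.1 h3
  have ha : a ∈ T \ ρ := by rw [hTs]; simp
  have hb : b ∈ T \ ρ := by rw [hTs]; simp
  have hc' : c ∈ T \ ρ := by rw [hTs]; simp
  rw [mem_sdiff] at ha hb hc'
  have key : ∀ u v w, u ∈ T → u ∉ ρ → v ∈ T → v ∉ ρ → w ∈ T → w ∉ ρ → u ≠ v → u ≠ w → v ≠ w →
      T \ ρ = {u, v, w} →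
      (∑ k ∈ g T (T.erase u), ∑ l ∈ g T (T.erase u),
        if k ≠ l ∧ ((g T (T.erase u)).erase k).erase l = g T ρ then
          ang z' (g T (T.erase u)) k l / (4 * π) else 0) =
      ang z' (g T (T.erase u)) (Sum.inl v) (Sum.inl w) / (2 * π) := by
    intro u v w hu hu' hv hv' hw hw' huv huw hvw h
    apply term z'
    · exact g_sub.2 (fun y hy => mem_erase.2 ⟨fun e => hu' (e ▸ hy), hρ hy⟩)
    · simpa using hvw
    · ext x
      rcases x with x | x
      · simp only [mem_sdiff, mem_g_inl, mem_erase, mem_insert, mem_singleton, Sum.inl.injEq]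
        constructor
        · rintro ⟨⟨h1, h2⟩, h3⟩
          have : x ∈ T \ ρ := mem_sdiff.2 ⟨h2, h3⟩
          rw [h, mem_insert, mem_insert, mem_singleton] at this
          tauto
        · rintro (rfl | rfl)
          · exact ⟨⟨huv.symm, hv⟩, hv'⟩
          · exact ⟨⟨huw.symm, hw⟩, hw'⟩
      · simp [mem_g_inr]
  rw [curv_filter, filter_cone hT hρ, sum_image (fun v hv w hw h =>
      erase_inj (mem_sdiff.1 hv).1 (mem_sdiff.1 hw).1 h), hTs, sum_insert (by simp [hab, hac]),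
    sum_pair hbc, key a b c ha.1 ha.2 hb.1 hb.2 hc'.1 hc'.2 hab hac hbc hTs,
    key b a c hb.1 hb.2 ha.1 ha.2 hc'.1 hc'.2 hab.symm hbc hac
      (by rw [hTs]; ext x; simp only [mem_insert, mem_singleton]; tauto),
    key c a b hc'.1 hc'.2 ha.1 ha.2 hb.1 hb.2 hac.symm hbc.symm hab
      (by rw [hTs]; ext x; simp only [mem_insert, mem_singleton]; tauto)]
  have := hB T hT a ha.1 b hb.1 c hc'.1 hab hac hbc
  have hpi := pi_ne_zero
  have e : ang z' (g T (T.erase a)) (Sum.inl b) (Sum.inl c) / (2 * π) +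
      (ang z' (g T (T.erase b)) (Sum.inl a) (Sum.inl c) / (2 * π) +
        ang z' (g T (T.erase c)) (Sum.inl a) (Sum.inl b) / (2 * π)) =
      (ang z' (g T (T.erase a)) (Sum.inl b) (Sum.inl c) +
        ang z' (g T (T.erase b)) (Sum.inl a) (Sum.inl c) +
        ang z' (g T (T.erase c)) (Sum.inl a) (Sum.inl b)) / (2 * π) := by ring
  rw [e, this, div_self (by positivity)]
  ring

/-- the vertices of an old face -/
noncomputable def oe (σ : Finset V) : σ ≃ (o σ : Finset (V ⊕ Finset V)) where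
  toFun x := ⟨Sum.inl x.1, mem_o_inl.2 x.2⟩
  invFun x := ⟨(x.1.elim id (fun _ => Classical.choice (by
      rcases x with ⟨x | x, hx⟩
      · exact ⟨x⟩
      · exact absurd hx mem_o_inr))), by
    rcases x with ⟨x | x, hx⟩
    · exact mem_o_inl.1 hx
    · exact absurd hx mem_o_inr⟩
  left_inv x := by simp
  right_inv x := by
    rcases x with ⟨x | x, hx⟩
    · simp
    · exact absurd hx mem_o_inr

theorem CM_o {z : Sym2 V → ℝ} {z' : Sym2 (V ⊕ Finset V) → ℝ}
    (h0 : ∀ x y : V, x ≠ y → z' s(Sum.inl x, Sum.inl y) = z s(x, y)) (σ : Finset V) :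
    CM z σ = (CM z' (o σ)).submatrix (oe σ).optionCongr (oe σ).optionCongr := by
  ext a b
  rcases a with _ | a <;> rcases b with _ | b
  · rfl
  · rfl
  · rfl
  · by_cases h : a = b
    · subst h
      simp [CM]
    · have h' : oe σ a ≠ oe σ b := fun e => h ((oe σ).injective e)
      have h'' : (a : V) ≠ b := fun e => h (Subtype.ext e)
      have e1 : CM z σ (some a) (some b) = z s(a.1, b.1) := by
        simp only [CM, Matrix.of_apply]
        rw [if_neg h]
      have e2 : (CM z' (o σ)).submatrix (oe σ).optionCongr (oe σ).optionCongr (some a) (some b) =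
          z' s(Sum.inl a.1, Sum.inl b.1) := by
        simp only [CM, Matrix.submatrix_apply, Equiv.optionCongr_apply, Option.map_some,
          Matrix.of_apply]
        rw [if_neg h']
        rfl
      rw [e1, e2, h0 _ _ h'']

theorem vol_o {z : Sym2 V → ℝ} {z' : Sym2 (V ⊕ Finset V) → ℝ}
    (h0 : ∀ x y : V, x ≠ y → z' s(Sum.inl x, Sum.inl y) = z s(x, y)) (σ : Finset V) :
    vol z' (o σ) = vol z σ := by
  unfold vol
  rw [CM_o h0 σ, Matrix.det_submatrix_equiv_self, card_o]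

theorem Q_o {z : Sym2 V → ℝ} {z' : Sym2 (V ⊕ Finset V) → ℝ}
    (h0 : ∀ x y : V, x ≠ y → z' s(Sum.inl x, Sum.inl y) = z s(x, y)) (σ : Finset V) (x y : V) :
    Q z' (o σ) (Sum.inl x) (Sum.inl y) = Q z σ x y := by
  unfold Q
  by_cases h : x ∈ σ ∧ y ∈ σ
  · rw [dif_pos h, dif_pos ⟨mem_o_inl.2 h.1, mem_o_inl.2 h.2⟩, CM_o h0 σ, Matrix.inv_submatrix_equiv]
    rfl
  · rw [dif_neg h, dif_neg (fun h' => h ⟨mem_o_inl.1 h'.1, mem_o_inl.1 h'.2⟩)]

/-- (3) the Einstein vector at old edges does not change -/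
theorem ein_old {n : ℕ} (hn : 3 ≤ n) {K : Finset (Finset V)} (hK : Pure n K)
    {z : Sym2 V → ℝ} {z' : Sym2 (V ⊕ Finset V) → ℝ}
    (h0 : ∀ x y : V, x ≠ y → z' s(Sum.inl x, Sum.inl y) = z s(x, y))
    (hA : ∀ T ∈ K, ∀ k ∈ T, ∀ l ∈ T, k ≠ l →
      ang z' (g T (T.erase k)) (Sum.inr T) (Sum.inl l) +
        ang z' (g T (T.erase l)) (Sum.inr T) (Sum.inl k) = ang z T k l)
    (hB : ∀ T ∈ K, ∀ k ∈ T, ∀ l ∈ T, ∀ m ∈ T, k ≠ l → k ≠ m → l ≠ m →
      ang z' (g T (T.erase k)) (Sum.inl l) (Sum.inl m) +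
        ang z' (g T (T.erase l)) (Sum.inl k) (Sum.inl m) +
        ang z' (g T (T.erase m)) (Sum.inl k) (Sum.inl l) = 2 * π) (x y : V) :
    ein n (cone K) z' (Sum.inl x) (Sum.inl y) = ein n K z x y := by
  unfold ein
  rw [faces_inl hK hn x y, sum_union]
  · have h1 : ∑ σ ∈ (K.filter ({x, y} ⊆ ·)).biUnion
        (fun T => ((powersetCard (n - 2) T).filter ({x, y} ⊆ ·)).image (g T)),
        curv (cone K) z' σ * (vol z' σ * Q z' σ (Sum.inl x) (Sum.inl y)) = 0 := by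
      apply sum_eq_zero
      intro σ hσ
      obtain ⟨T, hT, h⟩ := mem_biUnion.1 hσ
      obtain ⟨ρ, hρ, rfl⟩ := mem_image.1 h
      have h2 := mem_powersetCard.1 (mem_filter.1 hρ).1
      rw [curv_new hn hK hB (mem_filter.1 hT).1 h2.1 h2.2, zero_mul]
    rw [h1, add_zero, sum_image (fun a _ b _ h => o_inj h)]
    have h3 : (faces K (n - 1)).filter (fun σ => x ∈ σ ∧ y ∈ σ) =
        (faces K (n - 1)).filter ({x, y} ⊆ ·) := by
      ext σ
      simp only [mem_filter, insert_subset_iff, singleton_subset_iff]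
    rw [h3]
    apply sum_congr rfl
    intro σ hσ
    have hc : #σ = n - 1 := by
      obtain ⟨T, hT, h⟩ := mem_biUnion.1 (mem_filter.1 hσ).1
      exact (mem_powersetCard.1 h).2
    rw [curv_old hn hK hA hc, vol_o h0, Q_o h0]
  · rw [disjoint_left]
    intro σ hσ hσ1
    rw [mem_image] at hσ
    rw [mem_biUnion] at hσ1
    obtain ⟨ρ, -, rfl⟩ := hσ
    obtain ⟨T, -, h⟩ := hσ1
    rw [mem_image] at h
    obtain ⟨τ, -, h⟩ := h
    have : Sum.inr T ∈ o ρ := by rw [← h]; exact mem_g_inr.2 rfl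
    exact mem_o_inr this

/-- (4) the Einstein vector at new edges is zero -/
theorem ein_new {n : ℕ} (hn : 3 ≤ n) {K : Finset (Finset V)} (hK : Pure n K)
    {z' : Sym2 (V ⊕ Finset V) → ℝ}
    (hB : ∀ T ∈ K, ∀ k ∈ T, ∀ l ∈ T, ∀ m ∈ T, k ≠ l → k ≠ m → l ≠ m →
      ang z' (g T (T.erase k)) (Sum.inl l) (Sum.inl m) +
        ang z' (g T (T.erase l)) (Sum.inl k) (Sum.inl m) +
        ang z' (g T (T.erase m)) (Sum.inl k) (Sum.inl l) = 2 * π)
    {T : Finset V} (hT : T ∈ K) (x : V) :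
    ein n (cone K) z' (Sum.inr T) (Sum.inl x) = 0 := by
  unfold ein
  rw [faces_inr hK hT hn, sum_image (fun a _ b _ h => g_inj T h)]
  apply sum_eq_zero
  intro ρ hρ
  rw [mem_filter, mem_powersetCard] at hρ
  rw [curv_new hn hK hB hT hρ.1.1 hρ.1.2, zero_mul]

/-- `ein` is symmetric -/
theorem ein_symm {W : Type} [DecidableEq W] (n : ℕ) (K : Finset (Finset W)) (z : Sym2 W → ℝ)
    (x y : W) : ein n K z x y = ein n K z y x := by
  unfold ein
  have h : (faces K (n - 1)).filter (fun σ => x ∈ σ ∧ y ∈ σ) =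
      (faces K (n - 1)).filter (fun σ => y ∈ σ ∧ x ∈ σ) := by
    ext σ
    simp only [mem_filter]
    tauto
  rw [h]
  apply sum_congr rfl
  intro σ _
  rw [Q_sy z σ x y]

/-- the edges of the cone: old ones and `{inr T, inl x}`, `x ∈ T` -/
theorem edge_cases {n : ℕ} (hn : 2 ≤ n) {K : Finset (Finset V)} (hK : Pure n K)
    {a b : V ⊕ Finset V} (hab : a ≠ b) (h : {a, b} ∈ faces (cone K) 2) :
    (∃ x y : V, a = Sum.inl x ∧ b = Sum.inl y ∧ x ≠ y ∧ {x, y} ∈ faces K 2) ∨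
    (∃ T ∈ K, ∃ x ∈ T, a = Sum.inr T ∧ b = Sum.inl x) ∨
    (∃ T ∈ K, ∃ x ∈ T, a = Sum.inl x ∧ b = Sum.inr T) := by
  obtain ⟨T', hT', h2⟩ := mem_biUnion.1 h
  obtain ⟨T, hT, v, hv, rfl⟩ := mem_cone.1 hT'
  have h3 := (mem_powersetCard.1 h2).1
  have ha : a ∈ g T (T.erase v) := h3 (by simp)
  have hb : b ∈ g T (T.erase v) := h3 (by simp)
  rcases a with x | T1 <;> rcases b with y | T2
  · left
    have hxy : x ≠ y := fun e => hab (by rw [e])
    have hx := mem_g_inl.1 ha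
    have hy := mem_g_inl.1 hb
    refine ⟨x, y, rfl, rfl, hxy, mem_biUnion.2 ⟨T, hT, mem_powersetCard.2 ⟨?_, card_pair hxy⟩⟩⟩
    rw [insert_subset_iff, singleton_subset_iff]
    exact ⟨(mem_erase.1 hx).2, (mem_erase.1 hy).2⟩
  · right; right
    have := mem_g_inr.1 hb
    subst this
    exact ⟨_, hT, x, (mem_erase.1 (mem_g_inl.1 ha)).2, rfl, rfl⟩
  · right; left
    have := mem_g_inr.1 ha
    subst this
    exact ⟨_, hT, y, (mem_erase.1 (mem_g_inl.1 hb)).2, rfl, rfl⟩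
  · exact absurd (by rw [mem_g_inr.1 ha, mem_g_inr.1 hb]) hab

end Pool.Agent.H18R4
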