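import Pool.Agent.H50En.Regge
import Pool.Agent.H16En.R2b
import Pool.Agent.H2En.R3
import Pool.Agent.H18En.R4

/-! The induced metric on the coned complex: curvature and total scalar curvature. -/

set_option autoImplicit false

namespace Pool.Agent.H18R4

open Real Finset Pool.Agent.H50En Pool.Agent.H16En RealInnerProductSpace

variable {V : Type} [DecidableEq V] {n : ℕ}

theorem sum_g {M : Type*} [AddCommMonoid M] (T ρ : Finset V) (F : V ⊕ Finset V → M) :
    ∑ x ∈ g T ρ, F x = F (Sum.inr T) + ∑ x ∈ ρ, F (Sum.inl x) := by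
  unfold g
  rw [sum_insert (by simp), sum_map]
  rfl

/-- the barycentre -/
noncomputable def bar (T : Finset V) (p : V → EuclideanSpace ℝ (Fin n)) : EuclideanSpace ℝ (Fin n) :=
  ((n : ℝ) + 1)⁻¹ • ∑ i ∈ T, p i

/-- dual system of the piece with base `T.erase k` and apex the barycentre -/
theorem piece {T : Finset V} (hT : #T = n + 1) {p gr : V → EuclideanSpace ℝ (Fin n)} {c : V → ℝ}
    (h : DualOn T p gr c) {k : V} (hk : k ∈ T) :
    DualOn (g T (T.erase k)) (Sum.elim p (fun _ => bar T p))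
      (Sum.elim (fun j => gr j - gr k) (fun _ => ((n : ℝ) + 1) • gr k))
      (Sum.elim (fun j => c j - c k) (fun _ => ((n : ℝ) + 1) * c k)) := by
  have hn0 : (n : ℝ) + 1 ≠ 0 := by positivity
  have hcT : (#T : ℝ) = n + 1 := by rw [hT]; push_cast; ring
  have hce : (#(T.erase k) : ℝ) = n := by rw [card_erase_of_mem hk, hT]; simp
  have hb : ∀ j ∈ T, c j + ⟪gr j, bar T p⟫ = ((n : ℝ) + 1)⁻¹ := by
    intro j hj
    have h1 : ∑ i ∈ T, (c j + ⟪gr j, p i⟫) = 1 := by
      rw [sum_congr rfl (fun i hi => h.coord j hj i hi)]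
      simp [hj]
    rw [sum_add_distrib, sum_const, nsmul_eq_mul, hcT] at h1
    unfold bar
    rw [inner_smul_right, inner_sum]
    field_simp
    linarith
  have hgk : ∑ j ∈ T.erase k, gr j = - gr k := by
    have := h.sumg
    rw [← add_sum_erase _ _ hk] at this
    exact eq_neg_of_add_eq_zero_right this
  have hck : ∑ j ∈ T.erase k, c j = 1 - c k := by
    have := h.sumc
    rw [← add_sum_erase _ _ hk] at this
    linarith
  refine ⟨?_, ?_, ?_, ?_⟩
  · intro a ha i hi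
    rcases a with j | S
    · have hj := mem_erase.1 (mem_g_inl.1 ha)
      rcases i with i | R
      · have hi := mem_erase.1 (mem_g_inl.1 hi)
        simp only [Sum.elim_inl, Sum.inl.injEq]
        have h1 := h.coord j hj.2 i hi.2
        have h2 := h.coord k hk i hi.2
        rw [if_neg (fun e => hi.1 e.symm)] at h2
        rw [inner_sub_left, ← h1]
        linarith
      · simp only [Sum.elim_inl, Sum.elim_inr, reduceCtorEq, if_false]
        rw [inner_sub_left]
        have h1 := hb j hj.2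
        have h2 := hb k hk
        linarith
    · rcases i with i | R
      · have hi := mem_erase.1 (mem_g_inl.1 hi)
        simp only [Sum.elim_inl, Sum.elim_inr, reduceCtorEq, if_false]
        have h2 := h.coord k hk i hi.2
        rw [if_neg (fun e => hi.1 e.symm)] at h2
        rw [real_inner_smul_left, ← mul_add, h2, mul_zero]
      · have e : S = R := by rw [mem_g_inr.1 ha, mem_g_inr.1 hi]
        simp only [Sum.elim_inr, e, if_true]
        rw [real_inner_smul_left, ← mul_add, hb k hk]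
        field_simp
  · rw [sum_g]
    simp only [Sum.elim_inl, Sum.elim_inr]
    rw [sum_sub_distrib, hgk, sum_const, ← Nat.cast_smul_eq_nsmul ℝ, hce, add_smul, one_smul]
    abel
  · rw [sum_g]
    simp only [Sum.elim_inl, Sum.elim_inr]
    rw [sum_sub_distrib, hck, sum_const, nsmul_eq_mul, hce]
    ring
  · intro x
    rw [sum_g]
    simp only [Sum.elim_inl, Sum.elim_inr]
    have h1 := h.rep x
    rw [← add_sum_erase _ _ hk] at h1
    have h2 : ∑ j ∈ T, p j = p k + ∑ j ∈ T.erase k, p j := (add_sum_erase _ _ hk).symm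
    have h3 : (((n : ℝ) + 1) * c k + ⟪((n : ℝ) + 1) • gr k, x⟫) • bar T p =
        (c k + ⟪gr k, x⟫) • (p k + ∑ j ∈ T.erase k, p j) := by
      unfold bar
      rw [real_inner_smul_left, ← mul_add, smul_smul, h2]
      congr 1
      field_simp
    have h4 : ∑ j ∈ T.erase k, ((c j - c k) + ⟪gr j - gr k, x⟫) • p j =
        ∑ j ∈ T.erase k, (c j + ⟪gr j, x⟫) • p j - (c k + ⟪gr k, x⟫) • ∑ j ∈ T.erase k, p j := by
      rw [smul_sum, ← sum_sub_distrib]
      apply sum_congr rfl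
      intro j _
      rw [inner_sub_left, ← sub_smul]
      congr 1
      ring
    rw [h3, h4, smul_add]
    conv_rhs => rw [← h1]
    abel

/-- squared distance from the barycentre, by Leibniz's formula -/
noncomputable def leib (n : ℕ) (z : Sym2 V → ℝ) (T : Finset V) (x : V) : ℝ :=
  (∑ y ∈ T, if x = y then 0 else z s(x, y)) / (n + 1) -
    (∑ y ∈ T, ∑ w ∈ T, if y = w then 0 else z s(y, w)) / (2 * (n + 1) ^ 2)

theorem leib_eq {T : Finset V} (hT : #T = n + 1) {z : Sym2 V → ℝ}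
    {p : V → EuclideanSpace ℝ (Fin n)}
    (hz : ∀ a ∈ T, ∀ b ∈ T, a ≠ b → z s(a, b) = Dist.dist (p a) (p b) ^ 2) {x : V} (hx : x ∈ T) :
    leib n z T x = Dist.dist (bar T p) (p x) ^ 2 := by
  have hn0 : (n : ℝ) + 1 ≠ 0 := by positivity
  have hcT : (#T : ℝ) = n + 1 := by rw [hT]; push_cast; ring
  have hD : ∀ i ∈ T, ∀ j ∈ T, (if i = j then (0 : ℝ) else z s(i, j)) =
      ⟪p i, p i⟫ - 2 * ⟪p i, p j⟫ + ⟪p j, p j⟫ := by
    intro i hi j hj
    split_ifs with hij
    · subst hij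
      ring
    · rw [hz i hi j hj hij, dist_eq_norm, ← real_inner_self_eq_norm_sq, inner_sub_left,
        inner_sub_right, inner_sub_right, real_inner_comm (p j) (p i)]
      ring
  set S := ∑ i ∈ T, p i with hS
  set N := ∑ i ∈ T, ⟪p i, p i⟫ with hN
  have e1 : ∀ i ∈ T, (∑ y ∈ T, if i = y then (0 : ℝ) else z s(i, y)) =
      (n + 1) * ⟪p i, p i⟫ - 2 * ⟪p i, S⟫ + N := by
    intro i hi
    rw [sum_congr rfl (fun j hj => hD i hi j hj), sum_add_distrib, sum_sub_distrib, sum_const,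
      nsmul_eq_mul, hcT, ← mul_sum, hS, inner_sum]
  have e2 : (∑ y ∈ T, ∑ w ∈ T, if y = w then (0 : ℝ) else z s(y, w)) =
      2 * (n + 1) * N - 2 * ⟪S, S⟫ := by
    rw [sum_congr rfl e1, sum_add_distrib, sum_sub_distrib, sum_const, nsmul_eq_mul, hcT,
      ← mul_sum, ← mul_sum, ← sum_inner]
    ring
  unfold leib
  rw [e1 x hx, e2, dist_eq_norm, ← real_inner_self_eq_norm_sq]
  unfold bar
  rw [← hS, inner_sub_left, inner_sub_right, inner_sub_right, real_inner_smul_left,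
    real_inner_smul_left, real_inner_smul_right, real_inner_smul_right, real_inner_comm (p x) S]
  field_simp
  ring

/-- the metric of the coned complex -/
noncomputable def ind (n : ℕ) (z : Sym2 V → ℝ) : Sym2 (V ⊕ Finset V) → ℝ :=
  Sym2.lift ⟨fun a b => match a, b with
    | Sum.inl x, Sum.inl y => z s(x, y)
    | Sum.inl x, Sum.inr T => leib n z T x
    | Sum.inr T, Sum.inl x => leib n z T x
    | Sum.inr _, Sum.inr _ => 1, by
      rintro (x | T) (y | S)
      · simp only [Sym2.eq_swap]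
      · rfl
      · rfl
      · rfl⟩

theorem ind_old (z : Sym2 V → ℝ) (x y : V) : ind n z s(Sum.inl x, Sum.inl y) = z s(x, y) := rfl
theorem ind_new (z : Sym2 V → ℝ) (T : Finset V) (x : V) :
    ind n z s(Sum.inr T, Sum.inl x) = leib n z T x := rfl
theorem ind_new' (z : Sym2 V → ℝ) (T : Finset V) (x : V) :
    ind n z s(Sum.inl x, Sum.inr T) = leib n z T x := rfl

theorem ind_dist {T : Finset V} (hT : #T = n + 1) {z : Sym2 V → ℝ}
    {p : V → EuclideanSpace ℝ (Fin n)}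
    (hz : ∀ a ∈ T, ∀ b ∈ T, a ≠ b → z s(a, b) = Dist.dist (p a) (p b) ^ 2) {ρ : Finset V}
    (hρ : ρ ⊆ T) :
    ∀ a ∈ g T ρ, ∀ b ∈ g T ρ, a ≠ b → ind n z s(a, b) =
      Dist.dist (Sum.elim p (fun _ : Finset V => bar T p) a)
        (Sum.elim p (fun _ : Finset V => bar T p) b) ^ 2 := by
  rintro (x | S) ha (y | R) hb hab
  · rw [ind_old, hz x (hρ (mem_g_inl.1 ha)) y (hρ (mem_g_inl.1 hb)) (fun e => hab (by rw [e]))]
    rfl
  · rw [mem_g_inr.1 hb, ind_new', leib_eq hT hz (hρ (mem_g_inl.1 ha)), dist_comm]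
    rfl
  · rw [mem_g_inr.1 ha, ind_new, leib_eq hT hz (hρ (mem_g_inl.1 hb))]
    rfl
  · exact absurd (by rw [mem_g_inr.1 ha, mem_g_inr.1 hb]) hab

/-- everything about one simplex -/
theorem simplex {T : Finset V} (hn : 3 ≤ n) (hT : #T = n + 1) {z : Sym2 V → ℝ}
    (hz : ∃ p : T → EuclideanSpace ℝ (Fin n), AffineIndependent ℝ p ∧
      ∀ a b : T, a ≠ b → Dist.dist (p a) (p b) ^ 2 = z s(a.1, b.1)) :
    ((CM z T).det ≠ 0 ∧ (∀ k ∈ T, Q z T k k < 0) ∧
      ∀ k ∈ T, ∀ l ∈ T, k ≠ l → 0 < Q z T k k * Q z T l l - Q z T k l ^ 2) ∧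
    (∀ v ∈ T, (CM (ind n z) (g T (T.erase v))).det ≠ 0 ∧
      (∀ k ∈ g T (T.erase v), Q (ind n z) (g T (T.erase v)) k k < 0) ∧
      ∀ k ∈ g T (T.erase v), ∀ l ∈ g T (T.erase v), k ≠ l →
        0 < Q (ind n z) (g T (T.erase v)) k k * Q (ind n z) (g T (T.erase v)) l l -
          Q (ind n z) (g T (T.erase v)) k l ^ 2) ∧
    (∀ v ∈ T, ∃ p : (g T (T.erase v) : Finset (V ⊕ Finset V)) → EuclideanSpace ℝ (Fin n),
      AffineIndependent ℝ p ∧ ∀ a b, a ≠ b → Dist.dist (p a) (p b) ^ 2 = ind n z s(a.1, b.1)) ∧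
    (∀ k ∈ T, ∀ l ∈ T, k ≠ l →
      ang (ind n z) (g T (T.erase k)) (Sum.inr T) (Sum.inl l) +
        ang (ind n z) (g T (T.erase l)) (Sum.inr T) (Sum.inl k) = ang z T k l) ∧
    (∀ k ∈ T, ∀ l ∈ T, ∀ m ∈ T, k ≠ l → k ≠ m → l ≠ m →
      ang (ind n z) (g T (T.erase k)) (Sum.inl l) (Sum.inl m) +
        ang (ind n z) (g T (T.erase l)) (Sum.inl k) (Sum.inl m) +
        ang (ind n z) (g T (T.erase m)) (Sum.inl k) (Sum.inl l) = 2 * π) ∧
    ∀ x ∈ T, 0 < leib n z T x := by
  obtain ⟨q, hq, hqz⟩ := hz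
  obtain ⟨p, gr, c, hpq, hd⟩ := exists_dualOn hT q hq
  have hzp : ∀ a ∈ T, ∀ b ∈ T, a ≠ b → z s(a, b) = Dist.dist (p a) (p b) ^ 2 := by
    intro a ha b hb hab
    rw [hpq ⟨a, ha⟩, hpq ⟨b, hb⟩, hqz ⟨a, ha⟩ ⟨b, hb⟩ (fun e => hab (congrArg Subtype.val e))]
  obtain ⟨hdet, hQ⟩ := hd.gram hzp
  have hcoord : ∀ k ∈ T, ∀ i ∈ T, c k + inner ℝ (gr k) (p i) = if i = k then 1 else 0 := by
    intro k hk i hi
    rw [hd.coord k hk i hi]
    by_cases h : k = i
    · rw [if_pos h, if_pos h.symm]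
    · rw [if_neg h, if_neg (Ne.symm h)]
  have hne := fun k (hk : k ∈ T) => H2En.grad_ne hcoord (by omega) hk
  have hP := fun v (hv : v ∈ T) => piece hT hd hv
  have hPd := fun v (hv : v ∈ T) => ind_dist hT hzp (erase_subset v T)
  have hPg := fun v (hv : v ∈ T) => (hP v hv).gram (hPd v hv)
  have hcard : ∀ v ∈ T, #(g T (T.erase v)) = n + 1 := by
    intro v hv
    rw [card_g, card_erase_of_mem hv, hT]; omega
  have hangT : ∀ k ∈ T, ∀ l ∈ T, ang z T k l = π - InnerProductGeometry.angle (gr k) (gr l) :=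
    fun k hk l hl => H2En.ang_eq (hQ k hk k hk) (hQ l hl l hl) (hQ k hk l hl)
  have hinr : ∀ v : V, (Sum.inr T : V ⊕ Finset V) ∈ g T (T.erase v) := fun v => mem_g_inr.2 rfl
  have hinl : ∀ v l : V, l ∈ T → v ≠ l → (Sum.inl l : V ⊕ Finset V) ∈ g T (T.erase v) :=
    fun v l hl h => mem_g_inl.2 (mem_erase.2 ⟨h.symm, hl⟩)
  have hangA : ∀ k ∈ T, ∀ l ∈ T, k ≠ l →
      ang (ind n z) (g T (T.erase k)) (Sum.inr T) (Sum.inl l) =
        π - InnerProductGeometry.angle (((n : ℝ) + 1) • gr k) (gr l - gr k) := by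
    intro k hk l hl hkl
    have h := (hPg k hk).2
    exact H2En.ang_eq (h _ (hinr k) _ (hinr k)) (h _ (hinl k l hl hkl) _ (hinl k l hl hkl))
      (h _ (hinr k) _ (hinl k l hl hkl))
  have hangB : ∀ k ∈ T, ∀ l ∈ T, ∀ m ∈ T, k ≠ l → k ≠ m →
      ang (ind n z) (g T (T.erase k)) (Sum.inl l) (Sum.inl m) =
        π - InnerProductGeometry.angle (gr l - gr k) (gr m - gr k) := by
    intro k hk l hl m hm hkl hkm
    have h := (hPg k hk).2
    exact H2En.ang_eq (h _ (hinl k l hl hkl) _ (hinl k l hl hkl))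
      (h _ (hinl k m hm hkm) _ (hinl k m hm hkm)) (h _ (hinl k l hl hkl) _ (hinl k m hm hkm))
  refine ⟨⟨hdet, H2En.Q_signs hQ hcoord (by omega)⟩, ?_, ?_, ?_, ?_, ?_⟩
  · intro v hv
    refine ⟨(hPg v hv).1, H2En.Q_signs (hPg v hv).2 (p := Sum.elim p (fun _ => bar T p))
      (c := Sum.elim (fun j => c j - c v) (fun _ => ((n : ℝ) + 1) * c v)) ?_
      (by rw [hcard v hv]; omega)⟩
    intro k hk i hi
    rw [(hP v hv).coord k hk i hi]
    by_cases h : k = i
    · rw [if_pos h, if_pos h.symm]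
    · rw [if_neg h, if_neg (Ne.symm h)]
  · intro v hv
    refine ⟨_, (hP v hv).ai, ?_⟩
    intro a b hab
    exact (hPd v hv a.1 a.2 b.1 b.2 (fun e => hab (Subtype.ext e))).symm
  · intro k hk l hl hkl
    rw [hangA k hk l hl hkl, hangA l hl k hk hkl.symm, hangT k hk l hl]
    exact H2En.angle_two' (gr k) (hne l hl).1 (by positivity)
  · intro k hk l hl m hm hkl hkm hlm
    rw [hangB k hk l hl m hm hkl hkm, hangB l hl k hk m hm hkl.symm hlm,
      hangB m hm k hk l hl hkm.symm hlm.symm]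
    exact H2En.angle_three ((hne k hk).2 l hl hkl.symm) ((hne k hk).2 m hm hkm.symm)
  · intro x hx
    obtain ⟨v, hv⟩ : (T.erase x).Nonempty := by
      rw [← card_pos, card_erase_of_mem hx, hT]; omega
    rw [mem_erase] at hv
    have h1 := leib_eq hT hzp hx
    rw [h1]
    have h2 : bar T p ≠ p x := by
      intro e
      have h3 := (hP v hv.2).coord (Sum.inr T) (hinr v) (Sum.inr T) (hinr v)
      have h4 := (hP v hv.2).coord (Sum.inr T) (hinr v) (Sum.inl x) (hinl v x hx hv.1)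
      simp only [Sum.elim_inr, Sum.elim_inl, if_true, reduceCtorEq, if_false] at h3 h4
      rw [e] at h3
      linarith
    have : 0 < Dist.dist (bar T p) (p x) := dist_pos.2 h2
    positivity

theorem cone_pure {K : Finset (Finset V)} (hK : Pure n K) : Pure n (cone K) := by
  intro S hS
  obtain ⟨T, hT, v, hv, rfl⟩ := mem_cone.1 hS
  rw [card_g, card_erase_of_mem hv, hK T hT]
  omega

/-- **Main theorem.** -/
theorem main (hn : 3 ≤ n) {K : Finset (Finset V)} (hK : Pure n K) {z : Sym2 V → ℝ}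
    (hz : IsMetric n K z) :
    IsMetric n (cone K) (ind n z) ∧
    (∀ σ : Finset V, #σ = n - 1 → curv (cone K) (ind n z) (o σ) = curv K z σ) ∧
    (∀ T ∈ K, ∀ ρ ⊆ T, #ρ = n - 2 → curv (cone K) (ind n z) (g T ρ) = 0) ∧
    (∀ x y : V, x ≠ y → HasDerivAt (fun u => totalCurv n K (Function.update z s(x, y) u))
      (ein n K z x y) (z s(x, y))) ∧
    (∀ x y : V, x ≠ y → HasDerivAt (fun u => totalCurv n (cone K)
      (Function.update (ind n z) s(Sum.inl x, Sum.inl y) u)) (ein n K z x y)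
        (ind n z s(Sum.inl x, Sum.inl y))) ∧
    (∀ T ∈ K, ∀ x ∈ T, HasDerivAt (fun u => totalCurv n (cone K)
      (Function.update (ind n z) s(Sum.inr T, Sum.inl x) u)) 0
        (ind n z s(Sum.inr T, Sum.inl x))) ∧
    (∀ T ∈ K, ∀ x ∈ T, 0 < ind n z s(Sum.inr T, Sum.inl x)) := by
  have hS := fun T (hT : T ∈ K) => simplex hn (hK T hT) (hz T hT)
  have hA : ∀ T ∈ K, ∀ k ∈ T, ∀ l ∈ T, k ≠ l →
      ang (ind n z) (g T (T.erase k)) (Sum.inr T) (Sum.inl l) +
        ang (ind n z) (g T (T.erase l)) (Sum.inr T) (Sum.inl k) = ang z T k l :=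
    fun T hT => (hS T hT).2.2.2.1
  have hB : ∀ T ∈ K, ∀ k ∈ T, ∀ l ∈ T, ∀ m ∈ T, k ≠ l → k ≠ m → l ≠ m →
      ang (ind n z) (g T (T.erase k)) (Sum.inl l) (Sum.inl m) +
        ang (ind n z) (g T (T.erase l)) (Sum.inl k) (Sum.inl m) +
        ang (ind n z) (g T (T.erase m)) (Sum.inl k) (Sum.inl l) = 2 * π :=
    fun T hT => (hS T hT).2.2.2.2.1
  have hc : ∀ S ∈ cone K, (CM (ind n z) S).det ≠ 0 ∧ (∀ k ∈ S, Q (ind n z) S k k < 0) ∧
      ∀ k ∈ S, ∀ l ∈ S, k ≠ l →
        0 < Q (ind n z) S k k * Q (ind n z) S l l - Q (ind n z) S k l ^ 2 := by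
    intro S hS'
    obtain ⟨T, hT, v, hv, rfl⟩ := mem_cone.1 hS'
    exact (hS T hT).2.1 v hv
  refine ⟨?_, fun σ hσ => curv_old hn hK hA hσ, fun T hT ρ hρ hcρ => curv_new hn hK hB hT hρ hcρ,
    fun x y hxy => regge hn hK (fun T hT => (hS T hT).1) hxy, ?_, ?_,
    fun T hT x hx => (hS T hT).2.2.2.2.2 x hx⟩
  · intro S hS'
    obtain ⟨T, hT, v, hv, rfl⟩ := mem_cone.1 hS'
    exact (hS T hT).2.2.1 v hv
  · intro x y hxy
    have h := regge hn (cone_pure hK) hc (x := Sum.inl x) (y := Sum.inl y)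
      (fun e => hxy (Sum.inl_injective e))
    rwa [ein_old hn hK (fun x y _ => ind_old z x y) hA hB x y] at h
  · intro T hT x hx
    have h := regge hn (cone_pure hK) hc (x := Sum.inr T) (y := Sum.inl x) (by simp)
    rwa [ein_new hn hK hB hT x] at h

/-- Ricci-flat metrics. -/
theorem flat (hn : 3 ≤ n) {K : Finset (Finset V)} (hK : Pure n K) {z : Sym2 V → ℝ}
    (hz : IsMetric n K z) :
    (IsEinstein n (cone K) (ind n z) ↔ ∀ x y : V, x ≠ y → {x, y} ∈ faces K 2 →
      HasDerivAt (fun u => totalCurv n K (Function.update z s(x, y) u)) 0 (z s(x, y))) ∧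
    (IsEinstein n (cone K) (ind n z) ↔ ∀ a b : V ⊕ Finset V, a ≠ b → {a, b} ∈ faces (cone K) 2 →
      HasDerivAt (fun u => totalCurv n (cone K) (Function.update (ind n z) s(a, b) u)) 0
        (ind n z s(a, b))) := by
  obtain ⟨h1, -, -, h4, h5, h6, h7⟩ := main hn hK hz
  have hA : ∀ a b : V ⊕ Finset V, a ≠ b → {a, b} ∈ faces (cone K) 2 →
      (∀ x y : V, x ≠ y → {x, y} ∈ faces K 2 →
        HasDerivAt (fun u => totalCurv n K (Function.update z s(x, y) u)) 0 (z s(x, y))) →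
      HasDerivAt (fun u => totalCurv n (cone K) (Function.update (ind n z) s(a, b) u)) 0
        (ind n z s(a, b)) := by
    intro a b hab h H
    rcases edge_cases (by omega) hK hab h with ⟨x, y, rfl, rfl, hxy, hf⟩ | ⟨T, hT, x, hx, rfl, rfl⟩ |
      ⟨T, hT, x, hx, rfl, rfl⟩
    · have h8 := h5 x y hxy
      rwa [(h4 x y hxy).unique (H x y hxy hf)] at h8
    · exact h6 T hT x hx
    · rw [Sym2.eq_swap]; exact h6 T hT x hx
  have key : IsEinstein n (cone K) (ind n z) → ∀ x y : V, x ≠ y → {x, y} ∈ faces K 2 →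
      HasDerivAt (fun u => totalCurv n K (Function.update z s(x, y) u)) 0 (z s(x, y)) := by
    rintro ⟨-, c, hc⟩ x y hxy hf
    obtain ⟨T, hT, hs⟩ := mem_biUnion.1 hf
    rw [mem_powersetCard] at hs
    have hx : x ∈ T := hs.1 (by simp)
    have hlift : ∀ ρ : Finset V, ρ ⊆ T → #ρ < n + 1 → ∃ v ∈ T, ρ ⊆ T.erase v := by
      intro ρ hρ hcρ
      obtain ⟨v, hv, hv'⟩ := exists_mem_notMem_of_card_lt_card (s := ρ) (t := T)
        (by rw [hK T hT]; exact hcρ)
      exact ⟨v, hv, fun y hy => mem_erase.2 ⟨fun e => hv' (e ▸ hy), hρ hy⟩⟩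
    have hc0 : c = 0 := by
      obtain ⟨v, hv, hv'⟩ := hlift {x} (by simpa using hx) (by rw [card_singleton]; omega)
      have hmem : ({Sum.inr T, Sum.inl x} : Finset (V ⊕ Finset V)) ∈ faces (cone K) 2 := by
        refine mem_biUnion.2 ⟨g T (T.erase v), mem_cone.2 ⟨T, hT, v, hv, rfl⟩,
          mem_powersetCard.2 ⟨?_, card_pair (by simp)⟩⟩
        rw [insert_subset_iff, singleton_subset_iff]
        exact ⟨mem_g_inr.2 rfl, mem_g_inl.2 (by simpa using hv')⟩
      have h8 := (hc _ _ (by simp) hmem).unique (h6 T hT x hx)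
      rcases mul_eq_zero.1 h8 with h | h
      · exact h
      · exact absurd h (h7 T hT x hx).ne'
    have hmem : ({Sum.inl x, Sum.inl y} : Finset (V ⊕ Finset V)) ∈ faces (cone K) 2 := by
      obtain ⟨v, hv, hv'⟩ := hlift {x, y} hs.1 (by rw [hs.2]; omega)
      refine mem_biUnion.2 ⟨g T (T.erase v), mem_cone.2 ⟨T, hT, v, hv, rfl⟩,
        mem_powersetCard.2 ⟨?_, card_pair (fun e => hxy (Sum.inl_injective e))⟩⟩
      rw [insert_subset_iff, singleton_subset_iff]
      exact ⟨mem_g_inl.2 (hv' (by simp)), mem_g_inl.2 (hv' (by simp))⟩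
    have h9 := (hc _ _ (fun e => hxy (Sum.inl_injective e)) hmem).unique (h5 x y hxy)
    rw [hc0, zero_mul] at h9
    have h10 := h4 x y hxy
    rwa [← h9] at h10
  constructor
  · constructor
    · exact key
    · intro H
      refine ⟨h1, 0, fun a b hab h => ?_⟩
      rw [zero_mul]
      exact hA a b hab h H
  · constructor
    · intro H a b hab h
      exact hA a b hab h (key H)
    · intro H
      refine ⟨h1, 0, fun a b hab h => ?_⟩
      rw [zero_mul]
      exact H a b hab h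

end Pool.Agent.H18R4
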